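import Pool.Agent.H798.BV.Stm3
import Pool.Agent.H163.BV.Bdp

/-!
# S_BDQ: Bregman domination of the first order Taylor remainder of `χ_p`, all `p > 1`

`rem_near3` is an adaptation of `Pool.Agent.H807.BV.rem_near` (helper807) and
`Pool.Agent.H163.BV.rem_near2` (helper163).
-/

set_option autoImplicit false

open Pool.Agent.H798.BV Pool.Agent.H807.BV Pool.Agent.H163.BV

namespace Pool.Agent.H233.BV

/-- powers are Lipschitz near `1` -/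
theorem lip1 (τ : ℝ) : ∃ L : ℝ, 0 ≤ L ∧ ∀ ξ : ℝ, 1 / 4 ≤ ξ → ξ ≤ 9 / 4 →
    |ξ ^ τ - 1| ≤ L * |ξ - 1| := by
  have hc : ContinuousOn (fun ξ : ℝ => τ * ξ ^ (τ - 1)) (Set.Icc (1 / 4) (9 / 4)) := by
    refine continuousOn_const.mul ?_
    intro ξ hξ
    exact (Real.continuousAt_rpow_const ξ (τ - 1) (Or.inl (by
      have := hξ.1
      intro h0
      rw [h0] at this
      norm_num at this))).continuousWithinAt
  obtain ⟨L, hL⟩ := isCompact_Icc.exists_bound_of_continuousOn hc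
  have h1mem : (1 : ℝ) ∈ Set.Icc (1 / 4 : ℝ) (9 / 4) := by constructor <;> norm_num
  have hL0 : 0 ≤ L := (norm_nonneg _).trans (hL 1 h1mem)
  refine ⟨L, hL0, fun ξ h1 h2 => ?_⟩
  have h := Convex.norm_image_sub_le_of_norm_hasDerivWithin_le (f := fun ξ : ℝ => ξ ^ τ)
    (f' := fun ξ : ℝ => τ * ξ ^ (τ - 1)) (s := Set.Icc (1 / 4 : ℝ) (9 / 4)) (C := L)
    (fun ξ hξ => (Real.hasDerivAt_rpow_const (Or.inl (by
      have := hξ.1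
      intro h0
      rw [h0] at this
      norm_num at this))).hasDerivWithinAt) hL (convex_Icc _ _) h1mem ⟨h1, h2⟩
  rw [Real.one_rpow, Real.norm_eq_abs, Real.norm_eq_abs] at h
  exact h

/-- second order expansion of powers near `1` -/
theorem quad1 (σ : ℝ) : ∃ C : ℝ, 0 ≤ C ∧ ∀ t : ℝ, 1 / 4 ≤ t → t ≤ 9 / 4 →
    |t ^ σ - (1 + σ * (t - 1))| ≤ C * (t - 1) ^ 2 := by
  obtain ⟨L, hL0, hL⟩ := lip1 (σ - 1)
  refine ⟨|σ| * L, by positivity, fun t h1 h2 => ?_⟩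
  have hsub : Set.uIcc 1 t ⊆ Set.Icc (1 / 4 : ℝ) (9 / 4) := by
    refine Set.uIcc_subset_Icc ⟨by norm_num, by norm_num⟩ ⟨h1, h2⟩
  have h := Convex.norm_image_sub_le_of_norm_hasDerivWithin_le
    (f := fun ξ : ℝ => ξ ^ σ - σ * ξ)
    (f' := fun ξ : ℝ => σ * ξ ^ (σ - 1) - σ * 1) (s := Set.uIcc 1 t)
    (C := |σ| * L * |t - 1|) (x := 1) (y := t)
    (fun ξ hξ => by
      have h3 := (hsub hξ).1
      have h4 : HasDerivAt (fun ξ : ℝ => ξ ^ σ) (σ * ξ ^ (σ - 1)) ξ :=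
        Real.hasDerivAt_rpow_const (Or.inl (by
          intro h0
          rw [h0] at h3
          norm_num at h3))
      exact (h4.sub ((hasDerivAt_id ξ).const_mul σ)).hasDerivWithinAt)
    (fun ξ hξ => by
      have h3 := hL ξ (hsub hξ).1 (hsub hξ).2
      have h4 : |ξ - 1| ≤ |t - 1| := by
        rw [Set.mem_uIcc] at hξ
        rcases hξ with h | h
        · rw [abs_of_nonneg (by linarith), abs_of_nonneg (by linarith)]
          linarith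
        · rw [abs_of_nonpos (by linarith), abs_of_nonpos (by linarith)]
          linarith
      rw [Real.norm_eq_abs, show σ * ξ ^ (σ - 1) - σ * 1 = σ * (ξ ^ (σ - 1) - 1) by ring, abs_mul,
        mul_assoc]
      exact mul_le_mul_of_nonneg_left (h3.trans (mul_le_mul_of_nonneg_left h4 hL0))
        (abs_nonneg σ))
    (convex_uIcc _ _) Set.left_mem_uIcc Set.right_mem_uIcc
  rw [Real.norm_eq_abs, Real.norm_eq_abs] at h
  have e1 : t ^ σ - σ * t - ((1 : ℝ) ^ σ - σ * 1) = t ^ σ - (1 + σ * (t - 1)) := by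
    rw [Real.one_rpow]
    ring
  have e2 : |σ| * L * |t - 1| * |t - 1| = |σ| * L * (t - 1) ^ 2 := by
    rw [mul_assoc, abs_mul_abs_self, sq]
  rw [e1, e2] at h
  exact h

/-- near: the quadratic bound of the remainder -/
theorem rem_near3 (p : ℝ) : ∃ C : ℝ, 0 ≤ C ∧ ∀ w v : ℂ, w ≠ 0 → ‖v‖ ≤ ‖w‖ / 2 →
    ‖chi p (w + v) - chi p w - (al p w * v + be p w * (starRingEnd ℂ) v)‖ ≤
      C * (‖w‖ ^ (p - 2) * (‖v‖ ^ 2 / ‖w‖)) := by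
  obtain ⟨D, hD0, hD⟩ := quad1 ((p - 2) / 2)
  refine ⟨|p - 2| + (25 / 4 * D + |p - 2|) * (3 / 2), by positivity, fun w v hw hv => ?_⟩
  have h0 : 0 < ‖w‖ := norm_pos_iff.2 hw
  obtain ⟨ρ, hρ⟩ : ∃ ρ : ℝ, ρ = ‖w‖ := ⟨_, rfl⟩
  rw [← hρ] at h0 hv ⊢
  obtain ⟨s, hs⟩ : ∃ s : ℝ, s = (2 - p) / 2 := ⟨_, rfl⟩
  have hs2 : |s| ≤ |p - 2| := by
    rw [hs, abs_div, abs_sub_comm]
    have := abs_nonneg (p - 2)
    rw [show |(2 : ℝ)| = 2 by norm_num]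
    linarith
  obtain ⟨c, hc⟩ : ∃ c : ℝ, c = ((starRingEnd ℂ) w * v).re := ⟨_, rfl⟩
  have hc1 : |c| ≤ ρ * ‖v‖ := by
    rw [hc]
    refine (Complex.abs_re_le_norm _).trans ?_
    rw [norm_mul, Complex.norm_conj, hρ]
  obtain ⟨y, hy⟩ : ∃ y : ℝ, y = ‖v‖ / ρ := ⟨_, rfl⟩
  have hy0 : 0 ≤ y := by rw [hy]; positivity
  have hvy : ‖v‖ = y * ρ := by rw [hy]; field_simp
  have hy1 : y ≤ 1 / 2 := by
    rw [hy, div_le_iff₀ h0]
    linarith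
  obtain ⟨x, hx⟩ : ∃ x : ℝ, x = 2 * (c / ρ ^ 2) + y ^ 2 := ⟨_, rfl⟩
  have hcρ : |c / ρ ^ 2| ≤ y := by
    rw [abs_div, abs_of_nonneg (sq_nonneg ρ), div_le_iff₀ (by positivity)]
    rw [hvy] at hc1
    nlinarith
  obtain ⟨hcl, hcr⟩ := abs_le.1 hcρ
  have hN : ‖w + v‖ ^ 2 = ρ ^ 2 * (1 + x) := by
    have h1 : ‖w + v‖ ^ 2 = ρ ^ 2 + 2 * c + ‖v‖ ^ 2 := by
      rw [hρ, hc, norm_sq_eq, norm_sq_eq, norm_sq_eq]
      simp
      ring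
    rw [h1, hx, hvy]
    field_simp
    ring
  have hx1 : 1 / 4 ≤ 1 + x := by
    rw [hx]
    nlinarith
  have hx2 : |x| ≤ 5 / 2 * y := by
    rw [abs_le, hx]
    constructor <;> nlinarith
  have hx3 : x ^ 2 ≤ 25 / 4 * y ^ 2 := by
    rw [← sq_abs x]
    calc |x| ^ 2 ≤ (5 / 2 * y) ^ 2 := pow_le_pow_left₀ (abs_nonneg _) hx2 2
      _ = 25 / 4 * y ^ 2 := by ring
  have hx4 : 1 + x ≤ 9 / 4 := by
    have := (abs_le.1 hx2).2
    linarith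
  have hbern := hD (1 + x) hx1 hx4
  rw [add_sub_cancel_left] at hbern
  have hsp : (p - 2) / 2 = -s := by rw [hs]; ring
  rw [hsp] at hbern
  obtain ⟨P, hP⟩ : ∃ P : ℝ, P = ρ ^ (p - 2) := ⟨_, rfl⟩
  have hP0 : 0 ≤ P := by rw [hP]; exact Real.rpow_nonneg h0.le _
  have hchi : chi p (w + v) = ((P * (1 + x) ^ (-s) : ℝ) : ℂ) * (w + v) := by
    unfold chi
    congr 2
    rw [norm_pow_eq, hN, Real.mul_rpow (sq_nonneg ρ) (by linarith), hP, hρ, norm_pow_eq w, hs]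
  have hchiw : chi p w = (P : ℂ) * w := by
    rw [hP, hρ]
    rfl
  obtain ⟨ε, hε⟩ : ∃ ε : ℝ, ε = (1 + x) ^ (-s) - (1 + -s * x) := ⟨_, rfl⟩
  rw [← hε] at hbern
  have hε1 : |ε| ≤ 25 / 4 * D * y ^ 2 := by
    refine hbern.trans ((mul_le_mul_of_nonneg_left hx3 hD0).trans (le_of_eq ?_))
    ring
  have hρc : (ρ : ℂ) ≠ 0 := by exact_mod_cast h0.ne'
  -- the linear part
  have hlin : al p w * v + be p w * (starRingEnd ℂ) v =
      (P : ℂ) * (v - (2 * s * (c / ρ ^ 2) : ℝ) * w) := by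
    have h1 : (w * (starRingEnd ℂ) v : ℂ) + (starRingEnd ℂ) w * v = ((2 * c : ℝ) : ℂ) := by
      rw [hc]
      apply Complex.ext
      · simp
        ring
      · simp
        ring
    have h2 : w * (starRingEnd ℂ) w = ((ρ ^ 2 : ℝ) : ℂ) := by
      rw [Complex.mul_conj, Complex.normSq_eq_norm_sq, hρ]
    unfold al be
    rw [← hρ, ← hP]
    push_cast at h1 h2 ⊢
    have h3 : w ^ 2 * (starRingEnd ℂ) v = 2 * (c : ℂ) * w - (ρ : ℂ) ^ 2 * v := by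
      linear_combination w * h1 - v * h2
    have h4 : w ^ 2 / (ρ : ℂ) ^ 2 * (starRingEnd ℂ) v = 2 * (c : ℂ) / (ρ : ℂ) ^ 2 * w - v := by
      rw [div_mul_eq_mul_div, h3]
      field_simp
    rw [hs]
    push_cast
    linear_combination ((P : ℂ) * (((p : ℂ) - 2) / 2)) * h4
  have heq : chi p (w + v) - chi p w - (al p w * v + be p w * (starRingEnd ℂ) v) =
      (P : ℂ) * (-((2 * s * (c / ρ ^ 2) : ℝ) : ℂ) * v + ((ε - s * y ^ 2 : ℝ) : ℂ) * (w + v)) := by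
    rw [hchi, hchiw, hlin]
    have h1 : (1 + x) ^ (-s) = ε + (1 - s * x) := by rw [hε]; ring
    rw [h1, hx]
    push_cast
    ring
  rw [heq, norm_mul, Complex.norm_real, Real.norm_of_nonneg hP0, ← hP]
  have hfin : ‖-((2 * s * (c / ρ ^ 2) : ℝ) : ℂ) * v + ((ε - s * y ^ 2 : ℝ) : ℂ) * (w + v)‖ ≤
      (|p - 2| + (25 / 4 * D + |p - 2|) * (3 / 2)) * (‖v‖ ^ 2 / ρ) := by
    refine (norm_add_le _ _).trans ?_
    rw [norm_mul, norm_mul, norm_neg, Complex.norm_real, Complex.norm_real, Real.norm_eq_abs,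
      Real.norm_eq_abs]
    have h1 : |2 * s * (c / ρ ^ 2)| ≤ |p - 2| * y := by
      rw [abs_mul]
      have h2s : |2 * s| = |p - 2| := by
        rw [hs, abs_sub_comm p 2]
        congr 1
        ring
      rw [h2s]
      exact mul_le_mul_of_nonneg_left hcρ (abs_nonneg _)
    have h2 : |ε - s * y ^ 2| ≤ (25 / 4 * D + |p - 2|) * y ^ 2 := by
      have h5 := sq_nonneg y
      calc |ε - s * y ^ 2| ≤ |ε| + |s * y ^ 2| := abs_sub _ _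
        _ = |ε| + |s| * y ^ 2 := by rw [abs_mul, abs_of_nonneg h5]
        _ ≤ 25 / 4 * D * y ^ 2 + |p - 2| * y ^ 2 :=
            add_le_add hε1 (mul_le_mul_of_nonneg_right hs2 h5)
        _ = _ := by ring
    have h3 : ‖w + v‖ ≤ 3 / 2 * ρ := by
      refine (norm_add_le _ _).trans ?_
      rw [← hρ]
      linarith
    have h4 : |2 * s * (c / ρ ^ 2)| * ‖v‖ ≤ |p - 2| * y * ‖v‖ :=
      mul_le_mul_of_nonneg_right h1 (norm_nonneg v)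
    have h5 : |ε - s * y ^ 2| * ‖w + v‖ ≤ (25 / 4 * D + |p - 2|) * y ^ 2 * (3 / 2 * ρ) :=
      mul_le_mul h2 h3 (norm_nonneg _) (by positivity)
    have h6 : ‖v‖ ^ 2 / ρ = y ^ 2 * ρ := by
      rw [hvy]
      field_simp
    rw [h6]
    have h7 : |p - 2| * y * ‖v‖ = |p - 2| * (y ^ 2 * ρ) := by rw [hvy]; ring
    rw [h7] at h4
    linarith
  calc P * _ ≤ P * ((|p - 2| + (25 / 4 * D + |p - 2|) * (3 / 2)) * (‖v‖ ^ 2 / ρ)) :=
        mul_le_mul_of_nonneg_left hfin hP0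
    _ = (|p - 2| + (25 / 4 * D + |p - 2|) * (3 / 2)) * (P * (‖v‖ ^ 2 / ρ)) := by ring

/-- comparison of powers -/
theorem cmp5 (q : ℝ) {X Y : ℝ} (hX : 0 < X) (hY : 0 < Y) (h1 : X ≤ 5 * Y) (h2 : Y ≤ 5 * X) :
    X ^ q ≤ 5 ^ |q| * Y ^ q := by
  rcases le_total 0 q with hq | hq
  · rw [abs_of_nonneg hq, ← Real.mul_rpow (by norm_num) hY.le]
    exact Real.rpow_le_rpow hX.le h1 hq
  · rw [abs_of_nonpos hq]
    have h3 : Y ^ (-q) ≤ 5 ^ (-q) * X ^ (-q) := by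
      rw [← Real.mul_rpow (by norm_num) hX.le]
      exact Real.rpow_le_rpow hY.le h2 (by linarith)
    have h4 : X ^ q * X ^ (-q) = 1 := by
      rw [← Real.rpow_add hX, add_neg_cancel, Real.rpow_zero]
    have h5 : Y ^ q * Y ^ (-q) = 1 := by
      rw [← Real.rpow_add hY, add_neg_cancel, Real.rpow_zero]
    have hXq : 0 < X ^ q := Real.rpow_pos_of_pos hX q
    have hYq : 0 < Y ^ q := Real.rpow_pos_of_pos hY q
    calc X ^ q = X ^ q * (Y ^ q * Y ^ (-q)) := by rw [h5, mul_one]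
      _ ≤ X ^ q * (Y ^ q * (5 ^ (-q) * X ^ (-q))) :=
          mul_le_mul_of_nonneg_left (mul_le_mul_of_nonneg_left h3 hYq.le) hXq.le
      _ = 5 ^ (-q) * Y ^ q * (X ^ q * X ^ (-q)) := by ring
      _ = 5 ^ (-q) * Y ^ q := by rw [h4, mul_one]

theorem norm_be3 (p : ℝ) {w : ℂ} (hw : w ≠ 0) :
    ‖be p w‖ = ‖w‖ ^ (p - 2) * (|p - 2| / 2) := by
  unfold be
  have h0 : 0 < ‖w‖ := norm_pos_iff.2 hw
  have e1 : ‖((‖w‖ ^ (p - 2) * ((p - 2) / 2) : ℝ) : ℂ)‖ = ‖w‖ ^ (p - 2) * (|p - 2| / 2) := by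
    rw [Complex.norm_real, Real.norm_eq_abs, abs_mul, abs_of_nonneg (Real.rpow_nonneg h0.le _),
      abs_div, show |(2 : ℝ)| = 2 by norm_num]
  have e2 : ‖((‖w‖ ^ 2 : ℝ) : ℂ)‖ = ‖w‖ ^ 2 := by
    rw [Complex.norm_real, Real.norm_of_nonneg (sq_nonneg _)]
  rw [norm_mul, norm_div, norm_pow, e1, e2, div_self (pow_pos h0 2).ne', mul_one]

/-- far: the sum of the sizes -/
theorem rem_far3 {p : ℝ} (hp1 : 1 < p) {w v : ℂ} (hw : 1 / 4 ≤ ‖w‖)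
    (hv : ‖w‖ ≤ 2 * ‖v‖) :
    ‖chi p (w + v) - chi p w - (al p w * v + be p w * (starRingEnd ℂ) v)‖ ≤
      ((3 ^ (p - 1) + 2 ^ (p - 1)) * 8 +
        (p / 2 + |p - 2| / 2) * (8 * 2 ^ |p - 2| + 4 ^ |p - 2| * 8 ^ (p - 1))) *
        (‖v‖ ^ (p - 2) * ‖v‖ ^ 2) := by
  have h0 : 0 < ‖w‖ := by linarith
  have hwne : w ≠ 0 := norm_pos_iff.1 h0
  have hv0 : 0 < ‖v‖ := by linarith
  have hv8 : 1 / 8 ≤ ‖v‖ := by linarith
  have hpow : ‖v‖ ^ (p - 2) * ‖v‖ = ‖v‖ ^ (p - 1) := by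
    rw [← Real.rpow_add_one hv0.ne']
    congr 1
    ring
  have hVq : 0 < ‖v‖ ^ (p - 2) := Real.rpow_pos_of_pos hv0 _
  have hV1 : ‖v‖ ^ (p - 1) ≤ 8 * (‖v‖ ^ (p - 2) * ‖v‖ ^ 2) := by
    rw [← hpow]
    have h1 : ‖v‖ ≤ 8 * ‖v‖ ^ 2 := by nlinarith
    calc ‖v‖ ^ (p - 2) * ‖v‖ ≤ ‖v‖ ^ (p - 2) * (8 * ‖v‖ ^ 2) :=
          mul_le_mul_of_nonneg_left h1 hVq.le
      _ = _ := by ring
  have h1 : ‖chi p (w + v)‖ ≤ 3 ^ (p - 1) * ‖v‖ ^ (p - 1) := by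
    refine (norm_chi_le hp1 _).trans ?_
    rw [← Real.mul_rpow (by norm_num) hv0.le]
    refine Real.rpow_le_rpow (norm_nonneg _) ?_ (by linarith)
    refine (norm_add_le _ _).trans ?_
    linarith
  have h2 : ‖chi p w‖ ≤ 2 ^ (p - 1) * ‖v‖ ^ (p - 1) := by
    refine (norm_chi_le hp1 _).trans ?_
    rw [← Real.mul_rpow (by norm_num) hv0.le]
    exact Real.rpow_le_rpow (norm_nonneg _) hv (by linarith)
  have h3 : ‖w‖ ^ (p - 2) * ‖v‖ ≤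
      (8 * 2 ^ |p - 2| + 4 ^ |p - 2| * 8 ^ (p - 1)) * (‖v‖ ^ (p - 2) * ‖v‖ ^ 2) := by
    have hZ : 0 ≤ ‖v‖ ^ (p - 2) * ‖v‖ ^ 2 := by positivity
    have e8 : (0 : ℝ) ≤ 4 ^ |p - 2| * 8 ^ (p - 1) := by positivity
    have e9 : (0 : ℝ) ≤ 8 * 2 ^ |p - 2| := by positivity
    rcases le_total 0 (p - 2) with hq | hq
    · have h4 : ‖w‖ ^ (p - 2) ≤ 2 ^ |p - 2| * ‖v‖ ^ (p - 2) := by
        rw [abs_of_nonneg hq, ← Real.mul_rpow (by norm_num) hv0.le]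
        exact Real.rpow_le_rpow h0.le hv hq
      have h5 : ‖w‖ ^ (p - 2) * ‖v‖ ≤ 2 ^ |p - 2| * (8 * (‖v‖ ^ (p - 2) * ‖v‖ ^ 2)) := by
        calc ‖w‖ ^ (p - 2) * ‖v‖ ≤ 2 ^ |p - 2| * ‖v‖ ^ (p - 2) * ‖v‖ :=
              mul_le_mul_of_nonneg_right h4 hv0.le
          _ = 2 ^ |p - 2| * ‖v‖ ^ (p - 1) := by rw [mul_assoc, hpow]
          _ ≤ _ := mul_le_mul_of_nonneg_left hV1 (by positivity)
      have h6 := mul_nonneg e8 hZ
      linarith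
    · have h4 : ‖w‖ ^ (p - 2) ≤ 4 ^ |p - 2| := by
        have h5 : ‖w‖ ^ (p - 2) ≤ (1 / 4 : ℝ) ^ (p - 2) :=
          Real.rpow_le_rpow_of_nonpos (by norm_num) hw hq
        have h6 : (1 / 4 : ℝ) ^ (p - 2) = 4 ^ |p - 2| := by
          rw [abs_of_nonpos hq, one_div, Real.inv_rpow (by norm_num), Real.rpow_neg (by norm_num)]
        rw [← h6]
        exact h5
      have h5 : ‖v‖ ≤ 8 ^ (p - 1) * (‖v‖ ^ (p - 2) * ‖v‖ ^ 2) := by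
        have h6 : (1 : ℝ) ≤ (8 * ‖v‖) ^ (p - 1) := Real.one_le_rpow (by linarith) (by linarith)
        rw [Real.mul_rpow (by norm_num) hv0.le] at h6
        calc ‖v‖ = 1 * ‖v‖ := by ring
          _ ≤ 8 ^ (p - 1) * ‖v‖ ^ (p - 1) * ‖v‖ := mul_le_mul_of_nonneg_right h6 hv0.le
          _ = 8 ^ (p - 1) * (‖v‖ ^ (p - 2) * ‖v‖ ^ 2) := by rw [← hpow]; ring
      have h7 : ‖w‖ ^ (p - 2) * ‖v‖ ≤
          4 ^ |p - 2| * (8 ^ (p - 1) * (‖v‖ ^ (p - 2) * ‖v‖ ^ 2)) :=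
        mul_le_mul h4 h5 hv0.le (by positivity)
      have h8 := mul_nonneg e9 hZ
      linarith
  have h5 : ‖al p w * v + be p w * (starRingEnd ℂ) v‖ ≤
      (p / 2 + |p - 2| / 2) * (‖w‖ ^ (p - 2) * ‖v‖) := by
    refine (norm_add_le _ _).trans ?_
    rw [norm_mul, norm_mul, norm_al hp1, norm_be3 p hwne, Complex.norm_conj]
    apply le_of_eq
    ring
  have h6 : (p / 2 + |p - 2| / 2) * (‖w‖ ^ (p - 2) * ‖v‖) ≤ (p / 2 + |p - 2| / 2) *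
      ((8 * 2 ^ |p - 2| + 4 ^ |p - 2| * 8 ^ (p - 1)) * (‖v‖ ^ (p - 2) * ‖v‖ ^ 2)) := by
    apply mul_le_mul_of_nonneg_left h3
    have := abs_nonneg (p - 2)
    linarith
  have h7 : (3 ^ (p - 1) + 2 ^ (p - 1)) * ‖v‖ ^ (p - 1) ≤
      (3 ^ (p - 1) + 2 ^ (p - 1)) * (8 * (‖v‖ ^ (p - 2) * ‖v‖ ^ 2)) :=
    mul_le_mul_of_nonneg_left hV1 (by positivity)
  have h8 := norm_sub_le (chi p (w + v) - chi p w) (al p w * v + be p w * (starRingEnd ℂ) v)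
  have h9 := norm_sub_le (chi p (w + v)) (chi p w)
  linarith

theorem t_BDQ (h : S_BRL) : S_BDQ := by
  intro p hp1
  obtain ⟨c, hc0, hc⟩ := h p hp1
  obtain ⟨C1, hC10, hC1⟩ := rem_near3 p
  obtain ⟨C2, hC2d⟩ : ∃ C2 : ℝ, C2 = ((3 : ℝ) ^ (p - 1) + 2 ^ (p - 1)) * 8 +
        (p / 2 + |p - 2| / 2) * (8 * 2 ^ |p - 2| + 4 ^ |p - 2| * 8 ^ (p - 1)) := ⟨_, rfl⟩
  have hC20 : 0 ≤ C2 := by
    rw [hC2d]
    have h1 := abs_nonneg (p - 2)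
    have h2 : 0 ≤ p / 2 + |p - 2| / 2 := by linarith
    positivity
  have hM0 : (0 : ℝ) < 5 ^ |p - 2| := by positivity
  refine ⟨((4 * C1 + C2) * 5 ^ |p - 2| + 1) / c, by positivity, fun a ha0 ha1 w hw =>
    ⟨al p w, be p w, fun z => ?_⟩⟩
  obtain ⟨v, hv⟩ : ∃ v : ℂ, v = z - w := ⟨_, rfl⟩
  obtain ⟨W, hWd⟩ : ∃ W : ℂ, W = w - a := ⟨_, rfl⟩
  have hza : z - a = W + v := by rw [hv, hWd]; ring
  have hzw : z = w + v := by rw [hv]; ring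
  have hWw : ‖W‖ ≤ ‖w‖ + a := by
    rw [hWd]
    refine (norm_sub_le _ _).trans ?_
    rw [Complex.norm_real, Real.norm_of_nonneg ha0]
  have hwW : ‖w‖ ≤ ‖W‖ + a := by
    have h1 : w = W + a := by rw [hWd]; ring
    rw [h1]
    refine (norm_add_le _ _).trans ?_
    rw [Complex.norm_real, Real.norm_of_nonneg ha0]
  rw [← hv, ← hWd, hza]
  rw [← hWd] at hw
  have hW0 : 0 < ‖W‖ := by linarith
  have hw0 : 0 < ‖w‖ := by linarith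
  have hwne : w ≠ 0 := norm_pos_iff.1 hw0
  have hv0 : 0 ≤ ‖v‖ := norm_nonneg v
  have hB := hc W v
  obtain ⟨B, hBd⟩ : ∃ B : ℝ, B = ‖W + v‖ ^ p - ‖W‖ ^ p - p * ((starRingEnd ℂ) (chi p W) * v).re :=
    ⟨_, rfl⟩
  rw [← hBd] at hB ⊢
  obtain ⟨Z, hZd⟩ : ∃ Z : ℝ, Z = ‖v‖ ^ 2 * (‖W‖ + ‖v‖) ^ (p - 2) := ⟨_, rfl⟩
  rw [← hZd] at hB
  have hZ0 : 0 ≤ Z := by rw [hZd]; positivity
  have hkey : ‖chi p z - chi p w - (al p w * v + be p w * (starRingEnd ℂ) v)‖ ≤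
      ((4 * C1 + C2) * 5 ^ |p - 2| + 1) * Z := by
    rw [hzw]
    rcases le_or_gt ‖v‖ (‖w‖ / 2) with h1 | h1
    · have h2 := hC1 w v hwne h1
      have h3 : ‖w‖ ^ (p - 2) ≤ 5 ^ |p - 2| * (‖W‖ + ‖v‖) ^ (p - 2) :=
        cmp5 (p - 2) hw0 (by linarith) (by linarith) (by linarith)
      have h4 : ‖v‖ ^ 2 / ‖w‖ ≤ 4 * ‖v‖ ^ 2 := by
        rw [div_le_iff₀ hw0]
        nlinarith [sq_nonneg ‖v‖]
      have h5 : ‖w‖ ^ (p - 2) * (‖v‖ ^ 2 / ‖w‖) ≤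
          5 ^ |p - 2| * (‖W‖ + ‖v‖) ^ (p - 2) * (4 * ‖v‖ ^ 2) :=
        mul_le_mul h3 h4 (by positivity) (by positivity)
      have h6 : C1 * (‖w‖ ^ (p - 2) * (‖v‖ ^ 2 / ‖w‖)) ≤ 4 * C1 * 5 ^ |p - 2| * Z := by
        calc _ ≤ C1 * (5 ^ |p - 2| * (‖W‖ + ‖v‖) ^ (p - 2) * (4 * ‖v‖ ^ 2)) :=
              mul_le_mul_of_nonneg_left h5 hC10
          _ = _ := by rw [hZd]; ring
      have h7 : 0 ≤ C2 * 5 ^ |p - 2| * Z := by positivity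
      have h8 : ((4 * C1 + C2) * 5 ^ |p - 2| + 1) * Z =
          4 * C1 * 5 ^ |p - 2| * Z + C2 * 5 ^ |p - 2| * Z + Z := by ring
      linarith
    · have h2 := rem_far3 hp1 (w := w) (v := v) (by linarith) (by linarith)
      rw [← hC2d] at h2
      have hvp : 0 < ‖v‖ := by linarith
      have h3 : ‖v‖ ^ (p - 2) ≤ 5 ^ |p - 2| * (‖W‖ + ‖v‖) ^ (p - 2) :=
        cmp5 (p - 2) hvp (by linarith) (by linarith) (by linarith)
      have h5 : ‖v‖ ^ (p - 2) * ‖v‖ ^ 2 ≤ 5 ^ |p - 2| * (‖W‖ + ‖v‖) ^ (p - 2) * ‖v‖ ^ 2 :=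
        mul_le_mul_of_nonneg_right h3 (sq_nonneg _)
      have h6 : C2 * (‖v‖ ^ (p - 2) * ‖v‖ ^ 2) ≤ C2 * 5 ^ |p - 2| * Z := by
        calc _ ≤ C2 * (5 ^ |p - 2| * (‖W‖ + ‖v‖) ^ (p - 2) * ‖v‖ ^ 2) :=
              mul_le_mul_of_nonneg_left h5 hC20
          _ = _ := by rw [hZd]; ring
      have h7 : 0 ≤ C1 * 5 ^ |p - 2| * Z := by positivity
      have h8 : ((4 * C1 + C2) * 5 ^ |p - 2| + 1) * Z =
          4 * (C1 * 5 ^ |p - 2| * Z) + C2 * 5 ^ |p - 2| * Z + Z := by ring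
      linarith
  refine hkey.trans ?_
  have h9 : ((4 * C1 + C2) * 5 ^ |p - 2| + 1) / c * B =
      ((4 * C1 + C2) * 5 ^ |p - 2| + 1) * (B / c) := by ring
  rw [h9]
  apply mul_le_mul_of_nonneg_left _ (by positivity)
  rw [le_div_iff₀ hc0]
  linarith

end Pool.Agent.H233.BV
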