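import Pool.Agent.H798.BV.Stm5

set_option autoImplicit false

/-!
# S_BK: the big part of `∑ |l_k|` is at most `2r/(1+r)` times the real part of the mean of the small `l_k`
-/

namespace Pool.Agent.H233.BV

open Pool.Agent.H798.BV

theorem t_BK : S_BK := by
  intro m l a r hm ha har hr hk hs
  have hm0 : (0 : ℝ) < m := by exact_mod_cast hm
  have hr0 : 0 < r := lt_of_lt_of_le ha har
  have h1r : 0 < 1 - r := by linarith
  set B : Finset (Fin m) := Finset.univ.filter (fun k => 2 / (1 - r) < ‖l k‖) with hB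
  set B' : Finset (Fin m) := Finset.univ.filter (fun k => ¬ 2 / (1 - r) < ‖l k‖) with hB'
  have hsplit : ∀ f : Fin m → ℝ, ∑ k ∈ B, f k + ∑ k ∈ B', f k = ∑ k, f k := fun f =>
    Finset.sum_filter_add_sum_filter_not _ _ _
  have hcard : (B.card : ℝ) + (B'.card : ℝ) = m := by
    have h := hsplit (fun _ => 1)
    simpa using h
  have hb0 : 0 ≤ ∑ k ∈ B, ‖l k‖ := Finset.sum_nonneg fun k _ => norm_nonneg _
  have hbm := hsplit (fun k => ‖l k‖)
  have hBcard : (B.card : ℝ) * (2 / (1 - r)) ≤ ∑ k ∈ B, ‖l k‖ := by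
    rw [← nsmul_eq_mul]
    refine Finset.card_nsmul_le_sum _ _ _ fun k hk => ?_
    exact ((Finset.mem_filter.1 hk).2).le
  have hBc : (B.card : ℝ) ≤ (1 - r) / 2 * ∑ k ∈ B, ‖l k‖ := by
    have h1 := mul_le_mul_of_nonneg_left hBcard (by positivity : 0 ≤ (1 - r) / 2)
    have h2 : (1 - r) / 2 * ((B.card : ℝ) * (2 / (1 - r))) = B.card := by
      field_simp
    linarith
  have e2 : (B'.card : ℝ) - a * (∑ k ∈ B', l k).re ≤ ∑ k ∈ B', ‖l k‖ := by
    have h1 : ∑ k ∈ B', (1 - a * (l k).re) ≤ ∑ k ∈ B', ‖l k‖ := by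
      refine Finset.sum_le_sum fun k _ => ?_
      have h2 := Complex.re_le_norm (1 - (a : ℂ) * l k)
      have h3 : (1 - (a : ℂ) * l k).re = 1 - a * (l k).re := by simp
      rw [h3] at h2
      exact h2.trans (hk k)
    rw [Finset.sum_sub_distrib, ← Finset.mul_sum] at h1
    rw [Complex.re_sum]
    simpa using h1
  have e3 : (1 + r) / 2 * ∑ k ∈ B, ‖l k‖ ≤ a * (∑ k ∈ B', l k).re := by
    nlinarith
  have e4 : 0 ≤ (∑ k ∈ B', l k).re := by
    have h1 : 0 ≤ a * (∑ k ∈ B', l k).re := le_trans (by positivity) e3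
    exact (mul_nonneg_iff_of_pos_left ha).1 h1
  have e5 : (1 + r) / 2 * ∑ k ∈ B, ‖l k‖ ≤ r * (∑ k ∈ B', l k).re :=
    e3.trans (mul_le_mul_of_nonneg_right har e4)
  have h1 : (sR (2 / (1 - r)) l).re = (∑ k ∈ B', l k).re / m := by
    show ((∑ k ∈ B', l k) / (m : ℂ)).re = _
    rw [← Complex.ofReal_natCast, Complex.div_ofReal_re]
  have h2 : bB (2 / (1 - r)) l = (∑ k ∈ B, ‖l k‖) / m := rfl
  rw [h1, h2, ← mul_div_assoc]
  refine div_le_div_of_nonneg_right ?_ hm0.le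
  rw [div_mul_eq_mul_div, le_div_iff₀ (by linarith : (0 : ℝ) < 1 + r)]
  linarith

end Pool.Agent.H233.BV
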